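import Mathlib

/-!
# The closed topologist's sine curve

Every subcontinuum of the closed topologist's sine curve has a connected set of local separating
points, but the curve has connected subsets which are not arcwise connected.
-/

set_option autoImplicit false

namespace Pool.Agent.U331.SC

open Set Filter Topology

/-- the closed topologist's sine curve -/
def X : Set (ℝ × ℝ) :=
  {z | (0 ≤ z.1 ∧ z.1 ≤ 1 ∧ -1 ≤ z.2 ∧ z.2 ≤ 1) ∧ (z.1 = 0 ∨ z.2 = Real.sin (z.1)⁻¹)}

/-- the parametrization of the ray -/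
noncomputable def g (x : ℝ) : ℝ × ℝ := (x, Real.sin x⁻¹)

theorem g_mem {x : ℝ} (h0 : 0 ≤ x) (h1 : x ≤ 1) : g x ∈ X :=
  ⟨⟨h0, h1, Real.neg_one_le_sin _, Real.sin_le_one _⟩, Or.inr rfl⟩

theorem continuousAt_g {x : ℝ} (hx : x ≠ 0) : ContinuousAt g x := by
  unfold g
  exact continuousAt_id.prodMk
    (Real.continuous_sin.continuousAt.comp (continuousAt_inv₀ hx))

theorem isClosed_X : IsClosed X := by
  apply IsSeqClosed.isClosed
  intro u z hu hz
  have h1 : Tendsto (fun k => (u k).1) atTop (𝓝 z.1) := (continuous_fst.tendsto z).comp hz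
  have h2 : Tendsto (fun k => (u k).2) atTop (𝓝 z.2) := (continuous_snd.tendsto z).comp hz
  refine ⟨⟨ge_of_tendsto' h1 fun k => (hu k).1.1, le_of_tendsto' h1 fun k => (hu k).1.2.1,
    ge_of_tendsto' h2 fun k => (hu k).1.2.2.1, le_of_tendsto' h2 fun k => (hu k).1.2.2.2⟩, ?_⟩
  by_cases hz1 : z.1 = 0
  · exact Or.inl hz1
  right
  have h3 : Tendsto (fun k => Real.sin ((u k).1)⁻¹) atTop (𝓝 (Real.sin (z.1)⁻¹)) :=
    (Real.continuous_sin.tendsto _).comp (h1.inv₀ hz1)
  refine tendsto_nhds_unique h2 (h3.congr' ?_)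
  filter_upwards [h1.eventually_ne hz1] with k hk
  exact ((hu k).2.resolve_left hk).symm

theorem isCompact_X : IsCompact X := by
  have h : X ⊆ Set.Icc ((0 : ℝ), (-1 : ℝ)) ((1 : ℝ), (1 : ℝ)) := by
    rintro z ⟨⟨h1, h2, h3, h4⟩, -⟩
    exact ⟨⟨h1, h3⟩, ⟨h2, h4⟩⟩
  exact isCompact_Icc.of_isClosed_subset isClosed_X h

instance : CompactSpace X := isCompact_iff_compactSpace.mp isCompact_X

theorem eq_g {p : ℝ × ℝ} (hp : p ∈ X) (h : p.1 ≠ 0) : p = g p.1 :=
  Prod.ext rfl (hp.2.resolve_left h)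

/-- the open piece of the ray over the interval `(a, b)` -/
def S (a b : ℝ) : Set X := {p : X | a < (p : ℝ × ℝ).1 ∧ (p : ℝ × ℝ).1 < b}

theorem image_S {a b : ℝ} (ha : 0 ≤ a) (hb : b ≤ 1) :
    ((↑) : X → ℝ × ℝ) '' S a b = g '' Set.Ioo a b := by
  ext z
  constructor
  · rintro ⟨p, ⟨h1, h2⟩, rfl⟩
    exact ⟨(p : ℝ × ℝ).1, ⟨h1, h2⟩, (eq_g p.2 (by linarith)).symm⟩
  · rintro ⟨x, ⟨h1, h2⟩, rfl⟩
    exact ⟨⟨g x, g_mem (by linarith) (by linarith)⟩, ⟨h1, h2⟩, rfl⟩

theorem isPreconnected_S {a b : ℝ} (ha : 0 ≤ a) (hb : b ≤ 1) : IsPreconnected (S a b) := by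
  rw [← Topology.IsInducing.subtypeVal.isPreconnected_image, image_S ha hb]
  apply isPreconnected_Ioo.image
  intro x hx
  exact (continuousAt_g (by have := hx.1; intro h; linarith)).continuousWithinAt

theorem mem_closure_S {a b : ℝ} (ha : 0 ≤ a) (hab : a < b) (hb : b ≤ 1) {p : X}
    (h1 : a ≤ (p : ℝ × ℝ).1) (h2 : (p : ℝ × ℝ).1 ≤ b) : p ∈ closure (S a b) := by
  rw [closure_subtype, image_S ha hb]
  rcases (p.2.1.1).eq_or_lt with h0 | h0
  · -- a point of the limit segment
    have ha0 : a = 0 := by rw [← h0] at h1; linarith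
    subst ha0
    set y := (p : ℝ × ℝ).2 with hy
    let x : ℕ → ℝ := fun n => (Real.arcsin y + ((n + 1 : ℕ) : ℝ) * (2 * Real.pi))⁻¹
    have hxt : Tendsto (fun n : ℕ => Real.arcsin y + ((n + 1 : ℕ) : ℝ) * (2 * Real.pi)) atTop
        atTop := by
      apply tendsto_atTop_add_const_left
      apply Tendsto.atTop_mul_const (by positivity)
      exact (tendsto_natCast_atTop_atTop (R := ℝ)).comp (tendsto_add_atTop_nat 1)
    have hx0 : Tendsto x atTop (𝓝 0) := tendsto_inv_atTop_zero.comp hxt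
    have hpos : ∀ᶠ n in atTop, 0 < x n := by
      filter_upwards [hxt.eventually_gt_atTop 0] with n hn
      exact inv_pos.mpr hn
    have hlt : ∀ᶠ n in atTop, x n < b := hx0.eventually_lt_const hab
    have hg : ∀ n, g (x n) = (x n, y) := by
      intro n
      unfold g
      simp only [x, inv_inv]
      rw [Real.sin_add_nat_mul_two_pi, Real.sin_arcsin p.2.1.2.2.1 p.2.1.2.2.2]
    have hp : (p : ℝ × ℝ) = (0, y) := Prod.ext h0.symm rfl
    have hlim : Tendsto (fun n => g (x n)) atTop (𝓝 (p : ℝ × ℝ)) := by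
      rw [hp]
      simp only [hg]
      exact hx0.prodMk_nhds tendsto_const_nhds
    apply mem_closure_of_tendsto hlim
    filter_upwards [hpos, hlt] with n hn1 hn2
    exact ⟨x n, ⟨hn1, hn2⟩, rfl⟩
  · rw [eq_g p.2 h0.ne']
    apply mem_closure_image (continuousAt_g h0.ne')
    rw [closure_Ioo hab.ne]
    exact ⟨h1, h2⟩

instance : ConnectedSpace X where
  isPreconnected_univ := by
    apply (isPreconnected_S le_rfl le_rfl).subset_closure (subset_univ _)
    intro p _
    exact mem_closure_S le_rfl one_pos le_rfl p.2.1.1 p.2.1.2.1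
  toNonempty := ⟨⟨_, g_mem le_rfl zero_le_one⟩⟩

/-- the set of local separating points -/
def L (C : Set X) : Set X :=
  {p : X | p ∈ C ∧ ∃ V : Set X, IsOpen V ∧ p ∈ V ∧
    ¬ IsPreconnected (connectedComponentIn (V ∩ C) p \ {p})}

theorem not_preconnected_punctured {T : Set X} {f : X → ℝ} (hf : Continuous f) {p u v : X}
    (hinj : ∀ x ∈ T, f x = f p → x = p) (hu : u ∈ T) (hv : v ∈ T) (h1 : f u < f p)
    (h2 : f p < f v) : ¬ IsPreconnected (T \ {p}) := by
  intro h
  have h3 := (h.image f hf.continuousOn).ordConnected.out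
    ⟨u, ⟨hu, fun h => by rw [h] at h1; exact lt_irrefl _ h1⟩, rfl⟩
    ⟨v, ⟨hv, fun h => by rw [h] at h2; exact lt_irrefl _ h2⟩, rfl⟩ ⟨h1.le, h2.le⟩
  obtain ⟨x, ⟨hx1, hx2⟩, hx3⟩ := h3
  exact hx2 (hinj x hx1 hx3)

theorem isPreconnected_L (C : Set X) (hC : IsCompact C) (hCc : IsConnected C) :
    IsPreconnected (L C) := by
  have hc1 : Continuous fun p : X => (p : ℝ × ℝ).1 := continuous_fst.comp continuous_subtype_val
  have hc2 : Continuous fun p : X => (p : ℝ × ℝ).2 := continuous_snd.comp continuous_subtype_val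
  have hLC : L C ⊆ C := fun p hp => hp.1
  -- the projection to the first coordinate
  have hI := eq_Icc_of_connected_compact (hCc.image _ hc1.continuousOn) (hC.image hc1)
  set a := sInf ((fun p : X => (p : ℝ × ℝ).1) '' C) with ha
  set b := sSup ((fun p : X => (p : ℝ × ℝ).1) '' C) with hb
  have hne : ((fun p : X => (p : ℝ × ℝ).1) '' C).Nonempty := hCc.nonempty.image _
  have hab : a ≤ b := by
    rw [hI] at hne
    exact nonempty_Icc.mp hne
  have haC : a ∈ (fun p : X => (p : ℝ × ℝ).1) '' C := by rw [hI]; exact left_mem_Icc.mpr hab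
  have hbC : b ∈ (fun p : X => (p : ℝ × ℝ).1) '' C := by rw [hI]; exact right_mem_Icc.mpr hab
  have ha0 : 0 ≤ a := by obtain ⟨p, -, hp⟩ := haC; rw [← hp]; exact p.2.1.1
  have hb1 : b ≤ 1 := by obtain ⟨p, -, hp⟩ := hbC; rw [← hp]; exact p.2.1.2.1
  have hmem : ∀ p ∈ C, a ≤ (p : ℝ × ℝ).1 ∧ (p : ℝ × ℝ).1 ≤ b := by
    intro p hp
    have : (p : ℝ × ℝ).1 ∈ Icc a b := by rw [← hI]; exact ⟨p, hp, rfl⟩
    exact this
  rcases hab.eq_or_lt with hab' | hab'
  · -- the projection is a point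
    rcases ha0.eq_or_lt with h0 | h0
    · -- the subcontinuum lies in the limit segment
      have hx : ∀ p ∈ C, (p : ℝ × ℝ).1 = 0 := by
        intro p hp
        have := hmem p hp
        rw [← hab', ← h0] at this
        exact le_antisymm this.2 this.1
      have hinj : ∀ p ∈ C, ∀ q ∈ C, (p : ℝ × ℝ).2 = (q : ℝ × ℝ).2 → p = q := by
        intro p hp q hq h
        exact Subtype.ext (Prod.ext ((hx p hp).trans (hx q hq).symm) h)
      have hJ := eq_Icc_of_connected_compact (hCc.image _ hc2.continuousOn) (hC.image hc2)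
      set c := sInf ((fun p : X => (p : ℝ × ℝ).2) '' C) with hc
      set d := sSup ((fun p : X => (p : ℝ × ℝ).2) '' C) with hd
      have hne' : ((fun p : X => (p : ℝ × ℝ).2) '' C).Nonempty := hCc.nonempty.image _
      have hcd : c ≤ d := by
        rw [hJ] at hne'
        exact nonempty_Icc.mp hne'
      have hmem' : ∀ p ∈ C, c ≤ (p : ℝ × ℝ).2 ∧ (p : ℝ × ℝ).2 ≤ d := by
        intro p hp
        have : (p : ℝ × ℝ).2 ∈ Icc c d := by rw [← hJ]; exact ⟨p, hp, rfl⟩
        exact this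
      obtain ⟨pc, hpc, hpc'⟩ : c ∈ (fun p : X => (p : ℝ × ℝ).2) '' C := by
        rw [hJ]; exact left_mem_Icc.mpr hcd
      obtain ⟨pd, hpd, hpd'⟩ : d ∈ (fun p : X => (p : ℝ × ℝ).2) '' C := by
        rw [hJ]; exact right_mem_Icc.mpr hcd
      -- every point but the end points separates `C`
      have hsep : ∀ p ∈ C, c < (p : ℝ × ℝ).2 → (p : ℝ × ℝ).2 < d → p ∈ L C := by
        intro p hp h1 h2
        refine ⟨hp, univ, isOpen_univ, mem_univ _, ?_⟩
        rw [univ_inter, hCc.isPreconnected.connectedComponentIn hp]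
        exact not_preconnected_punctured hc2 (fun x hx h => hinj x hx p hp h) hpc hpd
          (by rw [show (pc : ℝ × ℝ).2 = c from hpc']; exact h1)
          (by rw [show (pd : ℝ × ℝ).2 = d from hpd']; exact h2)
      -- connectedness through the injective second coordinate
      have hval : ∀ y, c ≤ y → y ≤ d → ((0 : ℝ), y) ∈ X := by
        intro y h1 h2
        have h3 : -1 ≤ c := by rw [← hpc']; exact pc.2.1.2.2.1
        have h4 : d ≤ 1 := by rw [← hpd']; exact pd.2.1.2.2.2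
        exact ⟨⟨le_rfl, zero_le_one, by linarith, by linarith⟩, Or.inl rfl⟩
      have himg : ((↑) : X → ℝ × ℝ) '' (L C) =
          (fun y : ℝ => ((0 : ℝ), y)) '' ((fun p : X => (p : ℝ × ℝ).2) '' (L C)) := by
        ext z
        constructor
        · rintro ⟨p, hp, rfl⟩
          exact ⟨_, ⟨p, hp, rfl⟩, Prod.ext (hx p (hLC hp)).symm rfl⟩
        · rintro ⟨_, ⟨p, hp, rfl⟩, rfl⟩
          exact ⟨p, hp, Prod.ext (hx p (hLC hp)) rfl⟩
      rw [← Topology.IsInducing.subtypeVal.isPreconnected_image, himg]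
      refine IsPreconnected.image ?_ _ (by fun_prop)
      apply Set.OrdConnected.isPreconnected
      constructor
      rintro _ ⟨p, hp, rfl⟩ _ ⟨q, hq, rfl⟩ y ⟨hy1, hy2⟩
      rcases hy1.eq_or_lt with h | h
      · exact ⟨p, hp, h⟩
      rcases hy2.eq_or_lt with h' | h'
      · exact ⟨q, hq, h'.symm⟩
      have h5 := (hmem' p (hLC hp)).1
      have h6 := (hmem' q (hLC hq)).2
      have h7 : c < y := lt_of_le_of_lt h5 h
      have h8 : y < d := lt_of_lt_of_le h' h6
      obtain ⟨s, hs, hs'⟩ : y ∈ (fun p : X => (p : ℝ × ℝ).2) '' C := by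
        rw [hJ]; exact ⟨h7.le, h8.le⟩
      refine ⟨s, hsep s hs ?_ ?_, hs'⟩
      · rw [show (s : ℝ × ℝ).2 = y from hs']; exact h7
      · rw [show (s : ℝ × ℝ).2 = y from hs']; exact h8
    · -- the subcontinuum is a point of the ray
      apply Set.Subsingleton.isPreconnected
      intro p hp q hq
      have h1 := hmem p (hLC hp)
      have h2 := hmem q (hLC hq)
      have h3 : (p : ℝ × ℝ).1 = (q : ℝ × ℝ).1 := by
        rw [← hab'] at h1 h2
        rw [le_antisymm h1.2 h1.1, le_antisymm h2.2 h2.1]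
      apply Subtype.ext
      rw [eq_g p.2 (by linarith [h1.1]), eq_g q.2 (by linarith [h2.1]), h3]
  · -- the subcontinuum contains an open piece of the ray
    have hinj : ∀ p q : X, a < (p : ℝ × ℝ).1 → (p : ℝ × ℝ).1 = (q : ℝ × ℝ).1 → p = q := by
      intro p q h1 h2
      apply Subtype.ext
      rw [eq_g p.2 (by linarith), eq_g q.2 (by linarith), h2]
    have hSC : S a b ⊆ C := by
      rintro p ⟨h1, h2⟩
      obtain ⟨q, hq, hq'⟩ : (p : ℝ × ℝ).1 ∈ (fun p : X => (p : ℝ × ℝ).1) '' C := by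
        rw [hI]; exact ⟨h1.le, h2.le⟩
      rw [hinj p q h1 hq'.symm]; exact hq
    have hSL : S a b ⊆ L C := by
      rintro p ⟨h1, h2⟩
      refine ⟨hSC ⟨h1, h2⟩, S a b, ?_, ⟨h1, h2⟩, ?_⟩
      · exact (isOpen_lt continuous_const hc1).inter (isOpen_lt hc1 continuous_const)
      · rw [inter_eq_left.mpr hSC, (isPreconnected_S ha0 hb1).connectedComponentIn ⟨h1, h2⟩]
        have h3 : g ((a + (p : ℝ × ℝ).1) / 2) ∈ X := g_mem (by linarith) (by linarith)
        have h4 : g (((p : ℝ × ℝ).1 + b) / 2) ∈ X := g_mem (by linarith) (by linarith)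
        apply not_preconnected_punctured hc1 (u := ⟨_, h3⟩) (v := ⟨_, h4⟩)
        · rintro x ⟨hx1, -⟩ hx2
          exact hinj x p hx1 hx2
        · constructor
          · show a < (a + (p : ℝ × ℝ).1) / 2
            linarith
          · show (a + (p : ℝ × ℝ).1) / 2 < b
            linarith
        · constructor
          · show a < ((p : ℝ × ℝ).1 + b) / 2
            linarith
          · show ((p : ℝ × ℝ).1 + b) / 2 < b
            linarith
        · show (a + (p : ℝ × ℝ).1) / 2 < (p : ℝ × ℝ).1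
          linarith
        · show (p : ℝ × ℝ).1 < ((p : ℝ × ℝ).1 + b) / 2
          linarith
    apply (isPreconnected_S ha0 hb1).subset_closure hSL
    intro p hp
    exact mem_closure_S ha0 hab' hb1 (hmem p (hLC hp)).1 (hmem p (hLC hp)).2

/-- the origin -/
def o : X := ⟨((0 : ℝ), (0 : ℝ)), ⟨⟨le_rfl, zero_le_one, by norm_num, by norm_num⟩, Or.inl rfl⟩⟩

/-- a point of the ray -/
noncomputable def w : X := ⟨g (1 / 2), g_mem (by norm_num) (by norm_num)⟩

theorem isConnected_A : IsConnected (S 0 1 ∪ {o}) := by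
  refine ⟨⟨o, Or.inr rfl⟩, ?_⟩
  apply (isPreconnected_S le_rfl le_rfl).subset_closure subset_union_left
  rintro p (hp | hp)
  · exact subset_closure hp
  · exact mem_closure_S le_rfl one_pos le_rfl p.2.1.1 p.2.1.2.1

theorem no_arc : ¬ ∃ f : unitInterval → X, Continuous f ∧ Function.Injective f ∧
    f 0 = o ∧ f 1 = w ∧ Set.range f ⊆ S 0 1 ∪ {o} := by
  rintro ⟨f, hf, hinj, h0, h1, hr⟩
  have hc1 : Continuous fun t => (f t : ℝ × ℝ).1 :=
    continuous_fst.comp (continuous_subtype_val.comp hf)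
  have hc2 : Continuous fun t => (f t : ℝ × ℝ).2 :=
    continuous_snd.comp (continuous_subtype_val.comp hf)
  have hpos : ∀ t, t ≠ 0 → 0 < (f t : ℝ × ℝ).1 := by
    intro t ht
    rcases hr ⟨t, rfl⟩ with h | h
    · exact h.1
    · exact absurd (hinj ((show f t = o from h).trans h0.symm)) ht
  -- near the start the second coordinate is small
  have hsmall : ∀ᶠ t in 𝓝 (0 : unitInterval), (f t : ℝ × ℝ).2 < 1 / 2 := by
    have : Tendsto (fun t => (f t : ℝ × ℝ).2) (𝓝 0) (𝓝 (f 0 : ℝ × ℝ).2) := hc2.tendsto 0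
    rw [h0] at this
    exact this.eventually_lt_const (by show (0 : ℝ) < 1 / 2; norm_num)
  obtain ⟨δ, hδ, hball⟩ := Metric.eventually_nhds_iff.mp hsmall
  -- a positive time in the ball
  let s : ℝ := min (δ / 2) 1
  have hs0 : 0 < s := lt_min (by positivity) one_pos
  have hs1 : s ≤ 1 := min_le_right _ _
  have hsδ : s < δ := lt_of_le_of_lt (min_le_left _ _) (by linarith)
  let s' : unitInterval := ⟨s, hs0.le, hs1⟩
  have hs'0 : s' ≠ 0 := fun h => hs0.ne' (congrArg Subtype.val h)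
  have hx1 := hpos s' hs'0
  -- a peak below the first coordinate at this time
  obtain ⟨n, hn⟩ := exists_nat_gt ((f s' : ℝ × ℝ).1)⁻¹
  let x : ℝ := (Real.pi / 2 + (n : ℝ) * (2 * Real.pi))⁻¹
  have hpi := Real.pi_gt_three
  have hn0 : (0 : ℝ) ≤ n := Nat.cast_nonneg n
  have hden : (n : ℝ) < Real.pi / 2 + (n : ℝ) * (2 * Real.pi) := by nlinarith
  have hden0 : 0 < Real.pi / 2 + (n : ℝ) * (2 * Real.pi) := by positivity
  have hx0 : 0 < x := inv_pos.mpr hden0
  have hxlt : x < (f s' : ℝ × ℝ).1 := by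
    have h3 : ((f s' : ℝ × ℝ).1)⁻¹ < Real.pi / 2 + (n : ℝ) * (2 * Real.pi) := hn.trans hden
    have h4 := inv_strictAnti₀ (inv_pos.mpr hx1) h3
    rwa [inv_inv] at h4
  -- the path passes through the peak
  have hpre : IsPreconnected (Icc (0 : unitInterval) s') := isPreconnected_Icc
  have hivt := hpre.intermediate_value (left_mem_Icc.mpr s'.2.1)
    (right_mem_Icc.mpr (show (0 : unitInterval) ≤ s' from s'.2.1)) hc1.continuousOn
  have hxI : x ∈ Icc (f 0 : ℝ × ℝ).1 (f s' : ℝ × ℝ).1 := by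
    rw [h0]; exact ⟨hx0.le, hxlt.le⟩
  obtain ⟨t, ht, htx⟩ := hivt hxI
  have htx' : (f t : ℝ × ℝ).1 = x := htx
  have hty : (f t : ℝ × ℝ).2 = 1 := by
    have h3 : (f t : ℝ × ℝ) = g x := by
      rw [← htx']; exact eq_g (f t).2 (by rw [htx']; exact hx0.ne')
    rw [h3]
    show Real.sin x⁻¹ = 1
    simp only [x, inv_inv]
    rw [Real.sin_add_nat_mul_two_pi, Real.sin_pi_div_two]
  have htd : dist t 0 < δ := by
    have h3 : (t : ℝ) ≤ s := ht.2
    have h4 : 0 ≤ (t : ℝ) := t.2.1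
    rw [Subtype.dist_eq]
    show |(t : ℝ) - 0| < δ
    rw [sub_zero, abs_of_nonneg h4]
    linarith
  have := hball htd
  rw [hty] at this
  norm_num at this

end Pool.Agent.U331.SC
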